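import Mathlib
import Pool.Agent.Y18.LC.Stm

set_option autoImplicit false

/-!
LC-CYC: norms in `ℤ[ζ_p]`.
-/

namespace Pool.Agent.Y548.LC

open NumberField IsCyclotomicExtension.Rat

instance inst_cyc (p : ℕ) [hp : Fact p.Prime] :
    IsCyclotomicExtension {p} ℚ (CyclotomicField p ℚ) := by
  have : NeZero ((p : ℕ) : ℚ) := ⟨by exact_mod_cast hp.out.ne_zero⟩
  exact CyclotomicField.isCyclotomicExtension p ℚ

theorem lam_pow_dvd (p : ℕ) [hp : Fact p.Prime] {ζ : CyclotomicField p ℚ}
    (hζ : IsPrimitiveRoot ζ p) : ∀ (e : ℕ) (y : 𝓞 (CyclotomicField p ℚ)),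
    p ^ e ∣ Ideal.absNorm (Ideal.span {y}) → (hζ.toInteger - 1) ^ e ∣ y := by
  intro e
  induction e with
  | zero => intro y _; simp
  | succ e ih =>
    intro y hy
    have h1 : hζ.toInteger - 1 ∣ y := by
      by_contra hnd
      have hco := isCoprime_of_not_zeta_sub_one_dvd p hζ hnd
      have hpd : p ∣ Ideal.absNorm (Ideal.span {y}) := (dvd_pow_self p (by omega)).trans hy
      obtain ⟨P, hP, h2, h3⟩ := Ideal.exists_isMaximal_dvd_of_dvd_absNorm' hp.out _ hpd
      have h4 : y ∈ P := Ideal.dvd_iff_le.1 h3 (Ideal.mem_span_singleton_self y)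
      have h5 : (p : 𝓞 (CyclotomicField p ℚ)) ∈ P := by
        have : (p : ℤ) ∈ P.under ℤ := by
          rw [h2]
          exact Ideal.mem_span_singleton_self _
        simpa using this
      obtain ⟨a, b, hab⟩ := hco
      apply hP.ne_top
      rw [Ideal.eq_top_iff_one, ← hab]
      exact P.add_mem (P.mul_mem_left _ h5) (P.mul_mem_left _ h4)
    obtain ⟨y', rfl⟩ := h1
    rw [pow_succ']
    apply mul_dvd_mul_left
    apply ih
    have h4 : Ideal.absNorm (Ideal.span {hζ.toInteger - 1}) = p := by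
      have hK : IsCyclotomicExtension {p ^ (0 + 1)} ℚ (CyclotomicField p ℚ) := by
        rw [zero_add, pow_one]; infer_instance
      have hζ' : IsPrimitiveRoot ζ (p ^ (0 + 1)) := by rw [zero_add, pow_one]; exact hζ
      have h := absNorm_span_zeta_sub_one p 0 hζ'
      exact h
    rw [← Ideal.span_singleton_mul_span_singleton, map_mul, h4, pow_succ'] at hy
    exact Nat.dvd_of_mul_dvd_mul_left hp.out.pos hy

theorem cyc : Pool.Agent.Y18.LC.CYC := by
  intro p hp _ e y hy
  have hζ := IsCyclotomicExtension.zeta_spec p ℚ (CyclotomicField p ℚ)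
  have h1 := lam_pow_dvd p hζ (e * (p - 1)) y hy
  have h2 := (associated_zeta_sub_one_pow_prime p hζ).pow_pow (n := e)
  rw [← pow_mul, mul_comm (p - 1) e] at h2
  exact h2.symm.dvd.trans h1

end Pool.Agent.Y548.LC
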