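import Mathlib
import Pool.Agent.Y18.LC.Stm
import Pool.Agent.Y548.LC.CYC

set_option autoImplicit false

/-!
LC-UNC, part A: the values of the annihilator at the characters are divisible by `p ^ m`.
-/

namespace Pool.Agent.Y548.LC

open NumberField Finset Polynomial

section A

variable (p : ℕ) [hp : Fact p.Prime]

/-- the root of unity -/
noncomputable def ze : 𝓞 (CyclotomicField p ℚ) :=
  (IsCyclotomicExtension.zeta_spec p ℚ (CyclotomicField p ℚ)).toInteger

theorem ze_prim : IsPrimitiveRoot (ze p) p :=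
  IsPrimitiveRoot.toInteger_isPrimitiveRoot
    (IsCyclotomicExtension.zeta_spec p ℚ (CyclotomicField p ℚ))

theorem ze_top (b : 𝓞 (CyclotomicField p ℚ)) : ∃ a : ℤ[X], b = aeval (ze p) a := by
  have h := IsCyclotomicExtension.Rat.adjoin_singleton_eq_top
    (IsCyclotomicExtension.zeta_spec p ℚ (CyclotomicField p ℚ))
  have hb : b ∈ (⊤ : Subalgebra ℤ (𝓞 (CyclotomicField p ℚ))) := Algebra.mem_top
  rw [← h, Algebra.adjoin_singleton_eq_range_aeval] at hb
  obtain ⟨a, ha⟩ := hb
  exact ⟨a, ha.symm⟩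

theorem cyc_dvd (f : ℤ[X]) (h : aeval (ze p) f = 0) : cyclotomic p ℤ ∣ f := by
  have hz := IsCyclotomicExtension.zeta_spec p ℚ (CyclotomicField p ℚ)
  rw [cyclotomic_eq_minpoly hz hp.out.pos]
  apply minpoly.isIntegrallyClosed_dvd (hz.isIntegral hp.out.pos)
  have h1 : aeval (algebraMap (𝓞 (CyclotomicField p ℚ)) (CyclotomicField p ℚ) (ze p)) f = 0 := by
    rw [aeval_algebraMap_apply, h, map_zero]
  exact h1

theorem key {A : Type} [AddCommGroup A] (s : Module.End ℤ A) (z : A) (N0 n : ℕ) (f : ℤ[X])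
    (hf : aeval s f z = 0) (hc : aeval s (cyclotomic p ℤ) (N0 • z) = 0)
    (hz : addOrderOf z = p ^ n) :
    p ^ n ∣ Ideal.absNorm (Ideal.span {aeval (ze p) f}) * N0 := by
  obtain ⟨b, hb⟩ := Ideal.mem_span_singleton'.1
    (Ideal.absNorm_mem (Ideal.span {aeval (ze p) f}))
  set R := Ideal.absNorm (Ideal.span {aeval (ze p) f}) with hR
  obtain ⟨a, rfl⟩ := ze_top p b
  have h1 : aeval (ze p) (a * f - C (R : ℤ)) = 0 := by
    rw [map_sub, map_mul, hb, aeval_C]
    simp
  obtain ⟨q, hq⟩ := cyc_dvd p _ h1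
  have h2 : aeval s (a * f - C (R : ℤ)) (N0 • z) = 0 := by
    rw [hq, mul_comm, map_mul, Module.End.mul_apply, hc, map_zero]
  have h3 : aeval s (a * f) (N0 • z) = 0 := by
    rw [map_mul, Module.End.mul_apply, map_nsmul (aeval s f), hf, smul_zero, map_zero]
  rw [map_sub, LinearMap.sub_apply, h3, zero_sub, neg_eq_zero, aeval_C] at h2
  rw [← hz]
  apply addOrderOf_dvd_of_nsmul_eq_zero
  rw [mul_comm, mul_smul]
  rw [smul_comm]
  rw [smul_comm]
  simpa using h2

variable {P : Type} [CommGroup P] [Fintype P] {M : Type} [CommGroup M] [MulDistribMulAction P M]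

theorem val_mem (t : ZMod p) : t.val < p := by
  have : NeZero p := ⟨hp.out.ne_zero⟩
  exact ZMod.val_lt t

theorem fiber {m : ℕ} (hcard : Fintype.card P = p ^ (m + 1)) (a : P →* Multiplicative (ZMod p))
    (ha : Function.Surjective a) {B : Type} [AddCommGroup B] (F : Multiplicative (ZMod p) → B) :
    ∑ g, F (a g) = p ^ m • ∑ j ∈ range p, F (Multiplicative.ofAdd ((j : ℕ) : ZMod p)) := by
  classical
  have : NeZero p := ⟨hp.out.ne_zero⟩
  have h1 : ∀ t, (univ.filter fun g => a g = t).card = p ^ m := by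
    have h2 : ∀ t, (univ.filter fun g => a g = t).card = (univ.filter fun g => a g = 1).card := by
      intro t
      exact MonoidHom.card_fiber_eq_of_mem_range a (ha t) (ha 1)
    have h3 : ∑ t : Multiplicative (ZMod p), (univ.filter fun g => a g = t).card =
        Fintype.card P := by
      rw [← Finset.card_univ]
      exact (Finset.card_eq_sum_card_fiberwise (s := univ) (t := univ) (f := a)
        (fun _ _ => by simp)).symm
    have h4 : Fintype.card (Multiplicative (ZMod p)) = p := by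
      rw [Fintype.card_multiplicative, ZMod.card]
    rw [Finset.sum_congr rfl (fun t _ => h2 t), Finset.sum_const, Finset.card_univ, h4, hcard,
      smul_eq_mul, pow_succ'] at h3
    have h5 := Nat.eq_of_mul_eq_mul_left hp.out.pos h3
    intro t
    rw [h2 t, h5]
  have h6 : ∑ g, F (a g) = ∑ t : Multiplicative (ZMod p), p ^ m • F t := by
    rw [← Finset.sum_fiberwise_of_maps_to (s := univ) (t := univ) (g := a) (fun _ _ => by simp)]
    refine Finset.sum_congr rfl fun t _ => ?_
    rw [← h1 t, ← Finset.sum_const]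
    refine Finset.sum_congr rfl fun g hg => ?_
    rw [(Finset.mem_filter.1 hg).2]
  rw [h6, ← Finset.smul_sum]
  congr 1
  refine Finset.sum_nbij' (fun t => (Multiplicative.toAdd t).val)
    (fun j => Multiplicative.ofAdd ((j : ℕ) : ZMod p)) ?_ ?_ ?_ ?_ ?_
  · intro t _
    exact Finset.mem_range.2 (ZMod.val_lt _)
  · intro j _
    exact Finset.mem_univ _
  · intro t _
    simp
  · intro j hj
    simp only [toAdd_ofAdd]
    exact ZMod.val_natCast_of_lt (Finset.mem_range.1 hj)
  · intro t _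
    simp

theorem claimA {m c n : ℕ} (hn : (m + 1) * (p - 1) + m + c ≤ n) (hn1 : 1 ≤ n) (hp2 : p ≠ 2)
    (hcard : Fintype.card P = p ^ (m + 1)) (V : Subgroup M)
    (hV : ∀ g : P, ∀ v ∈ V, g • v ∈ V) (x : P → ℤ) (a : P →* Multiplicative (ZMod p))
    (ha : Function.Surjective a) (z : M) (h1 : ∀ h ∈ a.ker, h • z = z) (h2 : z ^ p ^ n ∈ V)
    (h3 : z ^ p ^ (n - 1) ∉ V) (h4 : (∏ g : P, g • z) ^ p ^ c ∈ V)
    (h5 : ∏ g, (g • z) ^ x g ∈ V) :
    (p : 𝓞 (CyclotomicField p ℚ)) ^ (m + 1) ∣
      ∑ g, (x g : 𝓞 (CyclotomicField p ℚ)) * ze p ^ (Multiplicative.toAdd (a g)).val := by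
  classical
  have : NeZero p := ⟨hp.out.ne_zero⟩
  obtain ⟨σ, hσ⟩ := ha (Multiplicative.ofAdd 1)
  let sM : M ⧸ V →* M ⧸ V := QuotientGroup.map V V (MulDistribMulAction.toMonoidHom M σ)
    (fun v hv => hV σ v hv)
  let s : Module.End ℤ (Additive (M ⧸ V)) := (MonoidHom.toAdditive sM).toIntLinearMap
  let q : M → Additive (M ⧸ V) := fun y => Additive.ofMul (QuotientGroup.mk y : M ⧸ V)
  have hqs : ∀ y, s (q y) = q (σ • y) := fun y => rfl
  have hq0 : ∀ y, q y = 0 ↔ y ∈ V := by
    intro y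
    show (Additive.ofMul (QuotientGroup.mk y : M ⧸ V) = 0) ↔ _
    rw [ofMul_eq_zero]
    exact QuotientGroup.eq_one_iff y
  have hqz : ∀ (k : ℤ) y, q (y ^ k) = k • q y := fun k y => rfl
  have hqn : ∀ (k : ℕ) y, q (y ^ k) = k • q y := fun k y => rfl
  have hqp : ∀ (F : P → M), q (∏ g, F g) = ∑ g, q (F g) := by
    intro F
    show Additive.ofMul ((QuotientGroup.mk' V) (∏ g, F g)) = _
    rw [map_prod]
    rfl
  have hsj : ∀ j : ℕ, (s ^ j) (q z) = q (σ ^ j • z) := by
    intro j
    induction j with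
    | zero => simp
    | succ j ih =>
      rw [pow_succ', Module.End.mul_apply, ih, hqs, smul_smul, ← pow_succ']
  have hg : ∀ g : P, g • z = σ ^ (Multiplicative.toAdd (a g)).val • z := by
    intro g
    have h6 : (σ ^ (Multiplicative.toAdd (a g)).val)⁻¹ * g ∈ a.ker := by
      rw [MonoidHom.mem_ker, map_mul, map_inv, map_pow, hσ, ← ofAdd_nsmul]
      simp
    have h7 := h1 _ h6
    rw [mul_smul, inv_smul_eq_iff] at h7
    exact h7
  let f : ℤ[X] := ∑ g, C (x g) * X ^ (Multiplicative.toAdd (a g)).val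
  have hfz : aeval (ze p) f =
      ∑ g, (x g : 𝓞 (CyclotomicField p ℚ)) * ze p ^ (Multiplicative.toAdd (a g)).val := by
    simp only [f, map_sum, map_mul, map_pow, aeval_X, aeval_C]
    simp
  have hf : aeval s f (q z) = 0 := by
    have h8 : aeval s f (q z) = ∑ g, x g • q (g • z) := by
      simp only [f, map_sum, map_mul, map_pow, aeval_X, aeval_C, LinearMap.sum_apply,
        Module.End.mul_apply]
      refine Finset.sum_congr rfl fun g _ => ?_
      rw [hsj, ← hg g]
      simp
    rw [h8]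
    have h9 := (hq0 _).2 h5
    rw [hqp] at h9
    rw [← h9]
    rfl
  have hc : aeval s (cyclotomic p ℤ) ((p ^ c * p ^ m) • q z) = 0 := by
    have h8 : aeval s (cyclotomic p ℤ) (q z) =
        ∑ j ∈ range p, q (σ ^ j • z) := by
      rw [cyclotomic_prime]
      simp only [map_sum, map_pow, aeval_X, LinearMap.sum_apply]
      exact Finset.sum_congr rfl fun j _ => hsj j
    have h9 := fiber p hcard a ha (fun t => q (σ ^ (Multiplicative.toAdd t).val • z))
    have h10 : ∑ j ∈ range p, q (σ ^ (Multiplicative.toAdd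
        (Multiplicative.ofAdd ((j : ℕ) : ZMod p))).val • z) = ∑ j ∈ range p, q (σ ^ j • z) := by
      refine Finset.sum_congr rfl fun j hj => ?_
      rw [toAdd_ofAdd, ZMod.val_natCast_of_lt (Finset.mem_range.1 hj)]
    rw [h10, ← h8] at h9
    have h11 : ∑ g : P, q (σ ^ (Multiplicative.toAdd (a g)).val • z) = q (∏ g : P, g • z) := by
      rw [hqp]
      exact Finset.sum_congr rfl fun g _ => by rw [← hg g]
    rw [map_nsmul (aeval s (cyclotomic p ℤ)), mul_smul, ← h9, h11, ← hqn, hq0]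
    exact h4
  have hord : addOrderOf (q z) = p ^ n := by
    obtain ⟨n', rfl⟩ : ∃ n', n = n' + 1 := ⟨n - 1, by omega⟩
    apply addOrderOf_eq_prime_pow
    · rw [← hqn, hq0]
      exact h3
    · rw [← hqn, hq0]
      exact h2
  have hkey := key p s (q z) (p ^ c * p ^ m) n f hf hc hord
  rw [hfz] at hkey
  apply cyc p hp2
  have h12 : p ^ ((m + 1) * (p - 1)) * (p ^ c * p ^ m) ∣
      Ideal.absNorm (Ideal.span {∑ g, (x g : 𝓞 (CyclotomicField p ℚ)) *
        ze p ^ (Multiplicative.toAdd (a g)).val}) * (p ^ c * p ^ m) := by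
    refine dvd_trans ?_ hkey
    rw [← pow_add, ← pow_add]
    exact pow_dvd_pow p (by omega)
  have hpp : 0 < p := hp.out.pos
  exact Nat.dvd_of_mul_dvd_mul_right (by positivity) h12

end A

end Pool.Agent.Y548.LC
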