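import Mathlib
import Pool.Agent.Y18.LC.Stm
import Pool.Agent.Y194.UP.Main
import Pool.Agent.Y548.LC.UncA

set_option autoImplicit false

/-!
LC-UNC: the uncertainty principle.
-/

namespace Pool.Agent.Y548.LC

open NumberField Finset

section B

variable (p : ℕ) [hp : Fact p.Prime] {P : Type} [CommGroup P]

/-- the character with values in `ℤ[ζ_p]` -/
noncomputable def ch (a : P →* Multiplicative (ZMod p)) : P →* 𝓞 (CyclotomicField p ℚ) :=
  haveI : NeZero p := ⟨hp.out.ne_zero⟩
  (AddChar.zmodChar p (ze_prim p).pow_eq_one).toMonoidHom.comp a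

theorem ch_apply (a : P →* Multiplicative (ZMod p)) (g : P) :
    ch p a g = ze p ^ (Multiplicative.toAdd (a g)).val := rfl

theorem ch_mul (a b : P →* Multiplicative (ZMod p)) (g : P) :
    ch p (a * b) g = ch p a g * ch p b g := by
  unfold ch
  rw [MonoidHom.comp_apply, MonoidHom.mul_apply, map_mul]
  rfl

theorem ze_eq_one {t : ZMod p} (h : ze p ^ t.val = 1) : t = 0 := by
  have h1 : NeZero p := ⟨hp.out.ne_zero⟩
  have h2 := (ze_prim p).dvd_of_pow_eq_one _ h
  have h3 := Nat.eq_zero_of_dvd_of_lt h2 (ZMod.val_lt t)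
  exact (ZMod.val_eq_zero t).1 h3

theorem ch_eq_one {a : P →* Multiplicative (ZMod p)} (h : ch p a = 1) : a = 1 := by
  ext g
  have h1 : ch p a g = 1 := by rw [h]; rfl
  rw [ch_apply] at h1
  have h2 := ze_eq_one p h1
  rw [MonoidHom.one_apply]
  exact Multiplicative.toAdd.injective h2

theorem ch_inv (a b : P →* Multiplicative (ZMod p)) (h : ∀ g, ch p a g = ch p b g) : a = b := by
  have h1 : ch p (a * b⁻¹) = 1 := by
    ext g
    have h2 : ch p (b * b⁻¹) g = 1 := by
      rw [mul_inv_cancel, ch_apply]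
      simp
    rw [ch_mul, h g, ← ch_mul, h2]
    rfl
  have h3 := ch_eq_one p h1
  rwa [mul_inv_eq_one] at h3

theorem orth [Fintype P] (a b : P →* Multiplicative (ZMod p)) [Decidable (a = b)] :
    ∑ g, ch p a g * ch p b⁻¹ g = if a = b then (Fintype.card P : 𝓞 (CyclotomicField p ℚ)) else 0
    := by
  classical
  have h1 : ∀ g, ch p a g * ch p b⁻¹ g = ch p (a * b⁻¹) g := fun g => (ch_mul p a b⁻¹ g).symm
  rw [Finset.sum_congr rfl fun g _ => h1 g, sum_hom_units]
  by_cases h : a = b
  · rw [if_pos h, if_pos]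
    rw [h, mul_inv_cancel]
    ext g
    rw [ch_apply]
    simp
  · rw [if_neg h, if_neg]
    · simp
    · intro h2
      have h3 := ch_eq_one p h2
      rw [mul_inv_eq_one] at h3
      exact h h3

/-- the characters with a given kernel -/
theorem exists_ch {H : Subgroup P} (hH : H.index = p) :
    ∃ a : P →* Multiplicative (ZMod p), a.ker = H ∧ Function.Surjective a := by
  have : NeZero p := ⟨hp.out.ne_zero⟩
  have h1 : Nat.card (P ⧸ H) = p := hH
  have h2 : Nat.card (Multiplicative (ZMod p)) = p := by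
    rw [Nat.card_eq_fintype_card, Fintype.card_multiplicative, ZMod.card]
  let e : P ⧸ H ≃* Multiplicative (ZMod p) := mulEquivOfPrimeCardEq h1 h2
  refine ⟨e.toMonoidHom.comp (QuotientGroup.mk' H), ?_, ?_⟩
  · rw [MonoidHom.ker_comp_of_injective]
    · exact QuotientGroup.ker_mk' H
    · exact e.injective
  · exact e.surjective.comp (QuotientGroup.mk'_surjective H)

theorem surj_of_index {a : P →* Multiplicative (ZMod p)} (h : a.ker.index = p) :
    Function.Surjective a := by
  have : NeZero p := ⟨hp.out.ne_zero⟩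
  rw [← MonoidHom.range_eq_top]
  apply Subgroup.eq_top_of_card_eq
  rw [← Subgroup.index_ker, h, Nat.card_eq_fintype_card, Fintype.card_multiplicative, ZMod.card]

theorem count [Finite P] (𝓗 : Finset (Subgroup P)) (h : ∀ H ∈ 𝓗, H.index = p)
    [Fintype (P →* Multiplicative (ZMod p))] [DecidableEq (Subgroup P)] :
    𝓗.card * (p - 1) ≤
      (univ.filter fun a : P →* Multiplicative (ZMod p) => a.ker ∈ 𝓗).card := by
  classical
  have hne : NeZero p := ⟨hp.out.ne_zero⟩
  have h1 : ∀ H : Subgroup P, ∃ a : P →* Multiplicative (ZMod p), H ∈ 𝓗 →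
      a.ker = H ∧ Function.Surjective a := by
    intro H
    by_cases hH : H ∈ 𝓗
    · obtain ⟨a, ha⟩ := exists_ch p (h H hH)
      exact ⟨a, fun _ => ha⟩
    · exact ⟨1, fun h => absurd h hH⟩
  choose A hA using h1
  have h2 : (Finset.Ioo 0 p).card = p - 1 := by simp
  rw [← h2, ← Finset.card_product]
  -- powers
  have hpow : ∀ (a : P →* Multiplicative (ZMod p)) (j : ℕ), 0 < j → j < p →
      (a ^ j).ker = a.ker := by
    intro a j h0 hj
    ext g
    rw [MonoidHom.mem_ker, MonoidHom.mem_ker, MonoidHom.pow_apply]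
    constructor
    · intro hg
      have h3 : j • (Multiplicative.toAdd (a g)) = 0 := by
        rw [← toAdd_pow, hg]; rfl
      rw [nsmul_eq_mul, mul_eq_zero] at h3
      rcases h3 with h3 | h3
      · exfalso
        rw [ZMod.natCast_eq_zero_iff] at h3
        exact absurd (Nat.le_of_dvd h0 h3) (by omega)
      · exact Multiplicative.toAdd.injective h3
    · intro hg
      rw [hg, one_pow]
  apply Finset.card_le_card_of_injOn (fun Hj => (A Hj.1) ^ Hj.2)
  · intro Hj hHj
    rw [Finset.mem_coe, Finset.mem_product, Finset.mem_Ioo] at hHj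
    rw [Finset.mem_coe, Finset.mem_filter]
    refine ⟨Finset.mem_univ _, ?_⟩
    rw [hpow _ _ hHj.2.1 hHj.2.2, (hA _ hHj.1).1]
    exact hHj.1
  · intro Hj hHj Hj' hHj' heq
    rw [Finset.mem_coe, Finset.mem_product, Finset.mem_Ioo] at hHj hHj'
    simp only at heq
    have h3 : Hj.1 = Hj'.1 := by
      have h4 := congrArg MonoidHom.ker heq
      rwa [hpow _ _ hHj.2.1 hHj.2.2, (hA _ hHj.1).1, hpow _ _ hHj'.2.1 hHj'.2.2,
        (hA _ hHj'.1).1] at h4
    have h5 : Hj.2 = Hj'.2 := by
      obtain ⟨g, hg⟩ := (hA _ hHj.1).2 (Multiplicative.ofAdd 1)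
      rw [← h3] at heq
      have h6 := congrArg (fun f : P →* Multiplicative (ZMod p) => Multiplicative.toAdd (f g)) heq
      simp only [MonoidHom.pow_apply, hg, toAdd_pow, toAdd_ofAdd, nsmul_eq_mul, mul_one] at h6
      rw [ZMod.natCast_eq_natCast_iff'] at h6
      rwa [Nat.mod_eq_of_lt hHj.2.2, Nat.mod_eq_of_lt hHj'.2.2] at h6
    exact Prod.ext h3 h5

end B

open Pool.Agent.Y194.UP in
theorem unc : Pool.Agent.Y18.LC.UNC := by
  intro p hp hp2 m c W
  refine ⟨m * (p - 1) + m + c + 1, fun n hn P _ _ hP hcard M _ _ V hV x w hw hx 𝓗 h𝓗 => ?_⟩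
  classical
  have hne : NeZero p := ⟨hp.out.ne_zero⟩
  have hfin : Finite (P →* Multiplicative (ZMod p)) :=
    Finite.of_injective (fun f : P →* Multiplicative (ZMod p) => (f : P → Multiplicative (ZMod p)))
      DFunLike.coe_injective
  let _ : Fintype (P →* Multiplicative (ZMod p)) := Fintype.ofFinite _
  have hcount := count p 𝓗 (fun H hH => (h𝓗 H hH).1)
  set Bs : Finset (P →* Multiplicative (ZMod p)) := univ.filter (fun a => a.ker ∈ 𝓗) with hBs
  -- divisibility
  have hdiv : ∀ a : P →* Multiplicative (ZMod p), ∃ d : 𝓞 (CyclotomicField p ℚ), a ∈ Bs →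
      ∑ g, (x g : 𝓞 (CyclotomicField p ℚ)) * ch p a g = (p : 𝓞 (CyclotomicField p ℚ)) ^ m * d := by
    intro a
    by_cases ha : a ∈ Bs
    · rw [hBs, Finset.mem_filter] at ha
      obtain ⟨hidx, z, h1, h2, h3, h4, h5⟩ := h𝓗 _ ha.2
      obtain ⟨m', rfl⟩ : ∃ m', m = m' + 1 := by
        rcases m with _ | m'
        · exfalso
          have h6 : a.ker.index ∣ Nat.card P := Subgroup.index_dvd_card _
          rw [hidx, Nat.card_eq_fintype_card, hcard, pow_zero] at h6
          exact hp.out.one_lt.ne' (Nat.dvd_one.1 h6)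
        · exact ⟨m', rfl⟩
      have h6 := claimA p (m := m') (c := c) (n := n) (by omega) (by omega) hp2 hcard V hV x a
        (surj_of_index p hidx) z h1 h2 h3 h4 h5
      obtain ⟨d, hd⟩ := h6
      exact ⟨d, fun _ => hd⟩
    · exact ⟨0, fun h => absurd h ha⟩
  choose d hd using hdiv
  let y : P → 𝓞 (CyclotomicField p ℚ) := fun g =>
    (x g : 𝓞 (CyclotomicField p ℚ)) - ∑ a ∈ Bs, d a * ch p a⁻¹ g
  have hy : ∀ b, ∑ g, y g * ch p b g =
      ∑ g, (x g : 𝓞 (CyclotomicField p ℚ)) * ch p b g -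
        ∑ a ∈ Bs, d a * (if b = a then (Fintype.card P : 𝓞 (CyclotomicField p ℚ)) else 0) := by
    intro b
    simp only [y, sub_mul, Finset.sum_sub_distrib, Finset.sum_mul]
    congr 1
    rw [Finset.sum_comm]
    refine Finset.sum_congr rfl fun a _ => ?_
    rw [← orth p b a, Finset.mul_sum]
    refine Finset.sum_congr rfl fun g _ => ?_
    ring
  have hyB : ∀ b ∈ Bs, ∑ g, y g * ch p b g = 0 := by
    intro b hb
    rw [hy, hd b hb]
    simp only [mul_ite, mul_zero]
    rw [Finset.sum_ite_eq, if_pos hb, hcard]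
    push_cast
    ring
  have hne1 : (1 : P →* Multiplicative (ZMod p)) ∉ Bs := by
    intro h
    rw [hBs, Finset.mem_filter] at h
    have h1 := (h𝓗 _ h.2).1
    have h2 : (1 : P →* Multiplicative (ZMod p)).ker = ⊤ := by
      ext g; simp
    rw [h2, Subgroup.index_top] at h1
    exact hp.out.one_lt.ne h1
  have hy1 : ∑ g, y g = (p : 𝓞 (CyclotomicField p ℚ)) ^ w := by
    have h1 := hy 1
    have h2 : ∀ g, ch p (1 : P →* Multiplicative (ZMod p)) g = 1 := by
      intro g
      rw [ch_apply]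
      simp
    simp only [h2, mul_one] at h1
    rw [h1]
    have h3 : ∑ a ∈ Bs, d a * (if (1 : P →* Multiplicative (ZMod p)) = a then
        (Fintype.card P : 𝓞 (CyclotomicField p ℚ)) else 0) = 0 := by
      apply Finset.sum_eq_zero
      intro a ha
      rw [if_neg, mul_zero]
      rintro rfl
      exact hne1 ha
    rw [h3, sub_zero]
    have h4 : ((∑ g, x g : ℤ) : 𝓞 (CyclotomicField p ℚ)) = ((p : ℤ) ^ w : ℤ) := by rw [hx]
    push_cast at h4
    exact h4
  -- the uncertainty principle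
  obtain ⟨σ⟩ : Nonempty (CyclotomicField p ℚ →+* ℂ) := inferInstance
  let Y : MonoidAlgebra (𝓞 (CyclotomicField p ℚ)) P := ∑ g, MonoidAlgebra.single g (y g)
  have haug : aug (CyclotomicField p ℚ) P Y = (p : 𝓞 (CyclotomicField p ℚ)) ^ w := by
    simp only [Y, map_sum, aug_single]
    exact hy1
  let τ : 𝓞 (CyclotomicField p ℚ) →+* ℂ :=
    σ.comp (algebraMap (𝓞 (CyclotomicField p ℚ)) (CyclotomicField p ℚ))
  have hτ : Function.Injective τ :=
    σ.injective.comp (FaithfulSMul.algebraMap_injective _ _)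
  let Ψ : (P →* Multiplicative (ZMod p)) → (P →* ℂ) := fun a => (τ : _ →* ℂ).comp (ch p a)
  have hΨ : Function.Injective Ψ := by
    intro a b hab
    apply ch_inv p
    intro g
    apply hτ
    exact DFunLike.congr_fun hab g
  have hev : ∀ χ ∈ Bs.image Ψ, ev σ χ Y = 0 := by
    intro χ hχ
    rw [Finset.mem_image] at hχ
    obtain ⟨b, hb, rfl⟩ := hχ
    simp only [Y, map_sum, ev_single]
    have h1 := congrArg τ (hyB b hb)
    rw [map_sum, map_zero] at h1
    rw [← h1]
    refine Finset.sum_congr rfl fun g _ => ?_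
    rw [map_mul]
    rfl
  have hPG : IsPGroup p P := IsPGroup.of_card (n := m) (by rw [Nat.card_eq_fintype_card, hcard])
  have hz := zeros_le σ hp.out hPG Y (c := p ^ w) (pow_ne_zero _ hp.out.ne_zero)
    (d := 1) (by rw [haug]; push_cast; ring) (Bs.image Ψ) hev
  rw [Finset.card_image_of_injective _ hΨ, padicValNat.prime_pow, Nat.card_eq_fintype_card,
    hcard] at hz
  push_cast at hz
  have hp0 : (0 : ℝ) < p := by exact_mod_cast hp.out.pos
  have hp1 : (1 : ℝ) ≤ p := by exact_mod_cast hp.out.one_lt.le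
  have hz' : (Bs.card : ℝ) + (p : ℝ) ^ m * ((p : ℝ)⁻¹) ^ w ≤ (p : ℝ) ^ m := by linarith
  by_cases hWm : W ≤ m
  · have h1 : (p : ℝ) ^ (m - W) ≤ (p : ℝ) ^ m * ((p : ℝ)⁻¹) ^ w := by
      have h2 : (p : ℝ) ^ (m - w) = (p : ℝ) ^ m * ((p : ℝ)⁻¹) ^ w := by
        rw [inv_pow, ← div_eq_mul_inv, eq_div_iff (by positivity), ← pow_add]
        congr 1
        omega
      rw [← h2]
      exact pow_le_pow_right₀ hp1 (by omega)
    have h2 : ((𝓗.card * (p - 1) : ℕ) : ℝ) ≤ Bs.card := by exact_mod_cast hcount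
    have h3 : ((𝓗.card * (p - 1) + p ^ (m - W) : ℕ) : ℝ) ≤ ((p ^ m : ℕ) : ℝ) := by
      push_cast at h2 ⊢
      linarith
    exact_mod_cast h3
  · have h0 : m - W = 0 := by omega
    rw [h0, pow_zero]
    have h1 : (0 : ℝ) < (p : ℝ) ^ m * ((p : ℝ)⁻¹) ^ w := by positivity
    have h2 : (Bs.card : ℝ) < ((p ^ m : ℕ) : ℝ) := by
      push_cast
      linarith
    have h3 : Bs.card < p ^ m := by exact_mod_cast h2
    omega

end Pool.Agent.Y548.LC
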